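import Pool.Agent.H76.SD.Targets

/-!
# SCA: lower bound for all squares
-/

namespace Pool.Agent.H89.SD

open Finset
open Pool.Agent.H76.SD
open Pool.Agent.H1.LP (Loc PD)

theorem sca (hCHR : T_CHR) (hPSX : T_PSX) : T_SCA := by
  intro p B d _ Q _ _ S x Ls La hLs hLa Ga c
  have hLa0 : 0 ≤ La := le_trans (abs_nonneg _) (hLa 0)
  set G2 := Ga.filter (fun ga => hit ga x ∉ Ls) with hG2
  set G1 := Ga.filter (fun ga => hit ga x ∈ Ls) with hG1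
  set N : ℝ := (Fintype.card (Fin B → Q → ZMod p) : ℝ) with hN
  have hN0 : 0 ≤ N := Nat.cast_nonneg _
  set F : (Fin B → Q → ZMod p) → ℂ := fun al => ∑ ga ∈ Ga, c ga * chr ga al with hF
  set F1 : (Fin B → Q → ZMod p) → ℂ := fun al => ∑ ga ∈ G1, c ga * chr ga al with hF1
  set F2 : (Fin B → Q → ZMod p) → ℂ := fun al => ∑ ga ∈ G2, c ga * chr ga al with hF2
  have hsplit : ∀ al, F al = F1 al + F2 al := by
    intro al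
    simp only [hF, hF1, hF2, hG1, hG2]
    rw [Finset.sum_filter_add_sum_filter_not]
  have hpos : 0 ≤ ∑ al, PD S al x * ‖F1 al‖ ^ 2 := by
    refine hPSX p B d Q S x Ls hLs G1 c ?_
    intro ga hga
    exact (Finset.mem_filter.1 hga).2
  have h1 : ∑ al, ‖F1 al‖ ^ 2 = N * ∑ ga ∈ G1, ‖c ga‖ ^ 2 := (hCHR p B Q).2 G1 c
  have h2 : ∑ al, ‖F2 al‖ ^ 2 = N * ∑ ga ∈ G2, ‖c ga‖ ^ 2 := (hCHR p B Q).2 G2 c
  have hle : ∑ ga ∈ G1, ‖c ga‖ ^ 2 ≤ ∑ ga ∈ Ga, ‖c ga‖ ^ 2 :=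
    Finset.sum_le_sum_of_subset_of_nonneg (Finset.filter_subset _ _) (fun _ _ _ => sq_nonneg _)
  have hcs : ∑ al, ‖F1 al‖ * ‖F2 al‖ ≤
      N * (√(∑ ga ∈ Ga, ‖c ga‖ ^ 2) * √(∑ ga ∈ G2, ‖c ga‖ ^ 2)) := by
    have hh := Real.sum_mul_le_sqrt_mul_sqrt (s := (univ : Finset (Fin B → Q → ZMod p)))
      (fun al => ‖F1 al‖) (fun al => ‖F2 al‖)
    refine hh.trans ?_
    rw [h1, h2, Real.sqrt_mul hN0, Real.sqrt_mul hN0]
    have hNN : √N * √N = N := Real.mul_self_sqrt hN0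
    have hs : √(∑ ga ∈ G1, ‖c ga‖ ^ 2) ≤ √(∑ ga ∈ Ga, ‖c ga‖ ^ 2) := Real.sqrt_le_sqrt hle
    calc √N * √(∑ ga ∈ G1, ‖c ga‖ ^ 2) * (√N * √(∑ ga ∈ G2, ‖c ga‖ ^ 2))
        = (√N * √N) * (√(∑ ga ∈ G1, ‖c ga‖ ^ 2) * √(∑ ga ∈ G2, ‖c ga‖ ^ 2)) := by ring
      _ ≤ N * (√(∑ ga ∈ Ga, ‖c ga‖ ^ 2) * √(∑ ga ∈ G2, ‖c ga‖ ^ 2)) := by
          rw [hNN]
          exact mul_le_mul_of_nonneg_left
            (mul_le_mul_of_nonneg_right hs (Real.sqrt_nonneg _)) hN0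
  have hterm : ∀ al, PD S al x * ‖F1 al‖ ^ 2 - La * (2 * (‖F1 al‖ * ‖F2 al‖) + ‖F2 al‖ ^ 2) ≤
      PD S al x * ‖F al‖ ^ 2 := by
    intro al
    have ha := abs_le.1 (hLa al)
    have hu : ‖F al‖ ≤ ‖F1 al‖ + ‖F2 al‖ := by rw [hsplit]; exact norm_add_le _ _
    have hl : ‖F1 al‖ ≤ ‖F al‖ + ‖F2 al‖ := by
      have : F1 al = F al - F2 al := by rw [hsplit]; ring
      rw [this]
      exact norm_sub_le _ _
    have n0 := norm_nonneg (F al)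
    have n1 := norm_nonneg (F1 al)
    have n2 := norm_nonneg (F2 al)
    set a := ‖F al‖
    set b := ‖F1 al‖
    set e := ‖F2 al‖
    set t := PD S al x
    have hup : a ^ 2 - b ^ 2 ≤ 2 * (b * e) + e ^ 2 := by nlinarith
    have hlo : b ^ 2 - a ^ 2 ≤ 2 * (b * e) + e ^ 2 := by
      by_cases hbe : b ≤ e
      · nlinarith
      · push Not at hbe
        have : b - e ≤ a := by linarith
        nlinarith
    have habs : |a ^ 2 - b ^ 2| ≤ 2 * (b * e) + e ^ 2 := abs_le.2 ⟨by linarith, hup⟩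
    have hprod : |t * (a ^ 2 - b ^ 2)| ≤ La * (2 * (b * e) + e ^ 2) := by
      rw [abs_mul]
      exact mul_le_mul (hLa al) habs (abs_nonneg _) hLa0
    have := (abs_le.1 hprod).1
    nlinarith
  have hsum : ∑ al, PD S al x * ‖F1 al‖ ^ 2 -
      La * (2 * ∑ al, ‖F1 al‖ * ‖F2 al‖ + ∑ al, ‖F2 al‖ ^ 2) ≤ ∑ al, PD S al x * ‖F al‖ ^ 2 := by
    have := Finset.sum_le_sum (fun al (_ : al ∈ (univ : Finset (Fin B → Q → ZMod p))) => hterm al)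
    refine le_trans (le_of_eq ?_) this
    rw [Finset.sum_sub_distrib, ← Finset.mul_sum, Finset.sum_add_distrib, ← Finset.mul_sum]
  have hfin : La * (2 * ∑ al, ‖F1 al‖ * ‖F2 al‖ + ∑ al, ‖F2 al‖ ^ 2) ≤
      La * N * (2 * (√(∑ ga ∈ Ga, ‖c ga‖ ^ 2) * √(∑ ga ∈ G2, ‖c ga‖ ^ 2)) +
        ∑ ga ∈ G2, ‖c ga‖ ^ 2) := by
    rw [h2, mul_assoc]
    refine mul_le_mul_of_nonneg_left ?_ hLa0
    nlinarith [hcs]
  have hgoal : -(La * N * (2 * (√(∑ ga ∈ Ga, ‖c ga‖ ^ 2) * √(∑ ga ∈ G2, ‖c ga‖ ^ 2)) +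
        ∑ ga ∈ G2, ‖c ga‖ ^ 2)) ≤ ∑ al, PD S al x * ‖F al‖ ^ 2 := by
    linarith
  exact hgoal

end Pool.Agent.H89.SD
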